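import Mathlib

/-!
# NoSuitable (MP_1c9ee6): definitions of the statement
-/

set_option autoImplicit false

set_option linter.all false

open Topology

namespace Pool.H81.MV.NoSuitable

/-- A gyrogroup structure on the type `G`. -/
structure Gyrogroup (G : Type) where
  op : G → G → G
  one : G
  inv : G → G
  gyr : G → G → Equiv.Perm G
  one_op : ∀ a, op one a = a
  inv_op : ∀ a, op (inv a) a = one
  gyr_op : ∀ a b c d, gyr a b (op c d) = op (gyr a b c) (gyr a b d)
  gyroassoc : ∀ a b c, op a (op b c) = op (op a b) (gyr a b c)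
  gyroloop : ∀ a b, gyr a b = gyr (op a b) b

namespace Gyrogroup

variable {G : Type} (Γ : Gyrogroup G)

/-- subgyrogroups: nonempty subsets closed under the operation and inversion -/
def IsSub (H : Set G) : Prop :=
  H.Nonempty ∧ (∀ a ∈ H, Γ.inv a ∈ H) ∧ ∀ a ∈ H, ∀ b ∈ H, Γ.op a b ∈ H

/-- the subgyrogroup generated by `S` -/
def gen (S : Set G) : Set G := ⋂₀ {H | Γ.IsSub H ∧ S ⊆ H}

/-- topological gyrogroups -/
def IsTopological [TopologicalSpace G] : Prop :=
  Continuous (fun p : G × G => Γ.op p.1 p.2) ∧ Continuous Γ.inv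

/-- the strong condition: a neighbourhood base at the identity whose members are invariant
under all gyrations -/
def IsStrong [TopologicalSpace G] : Prop :=
  ∃ U : Set (Set G), (∀ u ∈ U, u ∈ 𝓝 Γ.one) ∧ (∀ v ∈ 𝓝 Γ.one, ∃ u ∈ U, u ⊆ v) ∧
    ∀ x y, ∀ u ∈ U, Γ.gyr x y '' u = u

/-- `S` is a suitable set for `K` (a subset of `G` with the subspace topology): `S` is a
discrete subset of `K`, the set `S` together with the identity is closed in `K`, and the
subgyrogroup generated by `S` is dense in `K`. -/
def IsSuitable [TopologicalSpace G] (K S : Set G) : Prop :=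
  S ⊆ K ∧ DiscreteTopology S ∧ IsClosed ((↑) ⁻¹' (insert Γ.one S) : Set K) ∧
    Dense ((↑) ⁻¹' (Γ.gen S) : Set K)

end Gyrogroup

/-- the topology is the order topology of some total order -/
def TopologicallyOrderable (G : Type) [TopologicalSpace G] : Prop :=
  ∃ _ : LinearOrder G, OrderTopology G

end Pool.H81.MV.NoSuitable
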