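import Mathlib
import Pool.Agent.H81.MV.NoSuitableDefs

/-!
# NoSuitable (MP_1c9ee6): the proof
-/

set_option autoImplicit false

set_option linter.all false

open Topology

namespace Pool.H81.MV.NoSuitable

/-- an abelian group as a gyrogroup with trivial gyrations -/
def ofAdd (A : Type) [AddCommGroup A] : Gyrogroup A where
  op := (· + ·)
  one := 0
  inv := Neg.neg
  gyr _ _ := 1
  one_op := zero_add
  inv_op := neg_add_cancel
  gyr_op _ _ _ _ := rfl
  gyroassoc a b c := (add_assoc a b c).symm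
  gyroloop _ _ := rfl

theorem gen_ofAdd (A : Type) [AddCommGroup A] (S : Set A) :
    (ofAdd A).gen S = (AddSubgroup.closure S : Set A) := by
  apply Set.Subset.antisymm
  · intro x hx
    apply hx (AddSubgroup.closure S : Set A)
    refine ⟨⟨⟨0, AddSubgroup.zero_mem _⟩, fun a ha => AddSubgroup.neg_mem _ ha,
      fun a ha b hb => AddSubgroup.add_mem _ ha hb⟩, AddSubgroup.subset_closure⟩
  · intro x hx H hH
    obtain ⟨⟨⟨h, hh⟩, h2, h3⟩, h4⟩ := hH
    have h5 : (0 : A) ∈ H := by
      have := h3 _ (h2 h hh) _ hh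
      have e : (ofAdd A).op ((ofAdd A).inv h) h = 0 := neg_add_cancel h
      rwa [e] at this
    exact AddSubgroup.closure_induction (p := fun x _ => x ∈ H) (fun x hx => h4 hx) h5
      (fun x y _ _ hx hy => h3 x hx y hy) (fun x _ hx => h2 x hx) hx

/-- the first uncountable ordinal as a type -/
abbrev I : Type := (Cardinal.aleph 1).ord.ToType

theorem countable_Iio (i : I) : (Set.Iio i).Countable := by
  have h : Cardinal.mk (Set.Iio i) < Cardinal.mk I := Cardinal.mk_Iio_lt i (by simp [I])
  have h1 : Cardinal.mk I = Cardinal.aleph 1 := Cardinal.mk_ord_toType _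
  rw [h1] at h
  exact (Cardinal.countable_iff_lt_aleph_one _).2 h

instance : Uncountable I := by
  rw [← Cardinal.aleph1_le_mk_iff]
  exact (Cardinal.mk_ord_toType _).ge

theorem countable_Iic (i : I) : (Set.Iic i).Countable := by
  have : Set.Iic i = insert i (Set.Iio i) := by
    ext j; simp [le_iff_eq_or_lt]
  rw [this]
  exact (countable_Iio i).insert i

/-- countable sets are strictly bounded -/
theorem bounded_of_countable (C : Set I) (hC : C.Countable) : ∃ b : I, ∀ c ∈ C, c < b := by
  by_contra hcon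
  push Not at hcon
  have h1 : (⋃ c ∈ C, Set.Iic c).Countable := hC.biUnion (fun c _ => countable_Iic c)
  have h2 : (⋃ c ∈ C, Set.Iic c) = Set.univ := by
    ext b
    simp only [Set.mem_iUnion, Set.mem_Iic, Set.mem_univ, iff_true]
    obtain ⟨c, hc, hbc⟩ := hcon b
    exact ⟨c, hc, hbc⟩
  rw [h2] at h1
  exact Set.not_countable_univ h1

theorem bounded_range {ι : Type*} [Countable ι] (f : ι → I) : ∃ b : I, ∀ n, f n < b := by
  obtain ⟨b, hb⟩ := bounded_of_countable (Set.range f) (Set.countable_range f)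
  exact ⟨b, fun n => hb _ ⟨n, rfl⟩⟩

theorem exists_gt' (i : I) : ∃ j, i < j := by
  obtain ⟨b, hb⟩ := bounded_of_countable {i} (Set.countable_singleton i)
  exact ⟨b, hb i rfl⟩

/-- closing off -/
theorem closing_off (F : I → I) (d0 : I) :
    ∃ d : I, d0 < d ∧ (∀ c < d, F c < d) ∧ ∀ c < d, ∃ c' < d, c < c' := by
  have step : ∀ d : I, ∃ d' : I, d < d' ∧ ∀ c ≤ d, F c < d' := by
    intro d
    obtain ⟨b, hb⟩ := bounded_of_countable (insert d (F '' Set.Iic d))
      (((countable_Iic d).image F).insert d)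
    exact ⟨b, hb d (Set.mem_insert _ _),
      fun c hc => hb _ (Set.mem_insert_of_mem _ ⟨c, hc, rfl⟩)⟩
  choose nx h1 h2 using step
  let s : ℕ → I := fun n => nx^[n] d0
  have hs : ∀ n, s (n + 1) = nx (s n) := fun n => Function.iterate_succ_apply' _ _ _
  have hne : {b : I | ∀ n, s n < b}.Nonempty := bounded_range s
  obtain ⟨d, hd, hmin⟩ := WellFounded.has_min (wellFounded_lt (α := I)) _ hne
  have hlt : ∀ c < d, ∃ n, c ≤ s n := by
    intro c hc
    by_contra hcon
    push Not at hcon
    exact hmin c hcon hc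
  refine ⟨d, hd 0, ?_, ?_⟩
  · intro c hc
    obtain ⟨n, hn⟩ := hlt c hc
    have := h2 (s n) c hn
    rw [← hs] at this
    exact this.trans (hd _)
  · intro c hc
    obtain ⟨n, hn⟩ := hlt c hc
    refine ⟨s (n + 1), hd _, ?_⟩
    rw [hs]
    exact hn.trans_lt (h1 _)

/-- ladders -/
theorem exists_ladder (b : I) : ∃ A : Set I, (∀ i ∈ A, i < b) ∧
    (∀ c < b, (A ∩ Set.Iio c).Finite) ∧ ∀ c < b, ∃ i ∈ A, c ≤ i := by
  by_cases hb : (Set.Iio b).Nonempty
  · haveI : Nonempty (Set.Iio b) := hb.to_subtype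
    haveI : Countable (Set.Iio b) := (countable_Iio b).to_subtype
    obtain ⟨xs, hm, ht⟩ := Filter.exists_seq_monotone_tendsto_atTop_atTop (Set.Iio b)
    refine ⟨Set.range (fun n => (xs n : I)), ?_, ?_, ?_⟩
    · rintro i ⟨n, rfl⟩; exact (xs n).2
    · intro c hc
      obtain ⟨n, hn⟩ := (ht.eventually (Filter.eventually_ge_atTop ⟨c, hc⟩)).exists
      apply (Set.finite_Iio n).image (fun n => (xs n : I)) |>.subset
      rintro i ⟨⟨m, rfl⟩, hm'⟩
      refine ⟨m, ?_, rfl⟩
      rw [Set.mem_Iio]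
      by_contra hmn
      push Not at hmn
      have h1 : (⟨c, hc⟩ : Set.Iio b) ≤ xs m := hn.trans (hm hmn)
      have h2 : c ≤ xs m := h1
      exact absurd hm' (not_lt.2 h2)
    · intro c hc
      obtain ⟨n, hn⟩ := (ht.eventually (Filter.eventually_ge_atTop ⟨c, hc⟩)).exists
      exact ⟨xs n, ⟨n, rfl⟩, hn⟩
  · rw [Set.not_nonempty_iff_eq_empty] at hb
    refine ⟨∅, by simp, by simp, ?_⟩
    intro c hc
    have : c ∈ Set.Iio b := hc
    rw [hb] at this
    exact this.elim

noncomputable section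

open Classical in
/-- indicator of a ladder of `b` -/
def g (b : I) (i : I) : ℤ := if i ∈ (exists_ladder b).choose then 1 else 0

theorem g_ge {b i : I} (h : b ≤ i) : g b i = 0 := by
  unfold g
  rw [if_neg]
  intro h1
  exact absurd ((exists_ladder b).choose_spec.1 i h1) (not_lt.2 h)

theorem g_finite {b c : I} (h : c < b) : {i | i < c ∧ g b i ≠ 0}.Finite := by
  apply ((exists_ladder b).choose_spec.2.1 c h).subset
  rintro i ⟨h1, h2⟩
  refine ⟨?_, h1⟩
  unfold g at h2
  by_contra h3
  exact h2 (if_neg h3)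

theorem g_cofinal {b c : I} (h : c < b) : ∃ i, c ≤ i ∧ i < b ∧ g b i ≠ 0 := by
  obtain ⟨i, h1, h2⟩ := (exists_ladder b).choose_spec.2.2 c h
  refine ⟨i, h2, (exists_ladder b).choose_spec.1 i h1, ?_⟩
  unfold g
  rw [if_pos h1]; exact one_ne_zero

/-- the function coded by `(u,c)` -/
def rep (u c : I →₀ ℤ) (i : I) : ℤ := u i + ∑ b ∈ c.support, c b * g b i

theorem rep_eq (u c : I →₀ ℤ) (i : I) : rep u c i = u i + c.sum (fun b n => n * g b i) := rfl

theorem rep_add (u c u' c' : I →₀ ℤ) (i : I) :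
    rep (u + u') (c + c') i = rep u c i + rep u' c' i := by
  rw [rep_eq, rep_eq, rep_eq, Finsupp.sum_add_index', Finsupp.add_apply]
  · ring
  · intro b; ring
  · intro b m n; ring

theorem rep_neg (u c : I →₀ ℤ) (i : I) : rep (-u) (-c) i = - rep u c i := by
  have h := rep_add u c (-u) (-c) i
  rw [add_neg_cancel, add_neg_cancel] at h
  have h0 : rep 0 0 i = 0 := by simp [rep]
  rw [h0] at h
  linarith

/-- the group `H`, as a set of functions -/
def Hset : Set (I → ℤ) := {x | ∃ u c, x = rep u c}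

/-- agreement below `b` -/
def agree (b : I) (x y : I → ℤ) : Prop := ∀ i < b, x i = y i

theorem agree_mono {b b' : I} (h : b ≤ b') {x y : I → ℤ} (hxy : agree b' x y) : agree b x y :=
  fun i hi => hxy i (hi.trans_le h)

theorem Hset_bounded (x : I → ℤ) (hx : x ∈ Hset) : ∃ b, ∀ i, b ≤ i → x i = 0 := by
  obtain ⟨u, c, rfl⟩ := hx
  obtain ⟨b, hb⟩ := bounded_of_countable (↑(u.support ∪ c.support) : Set I)
    (Finset.countable_toSet _)
  refine ⟨b, fun i hi => ?_⟩
  unfold rep
  have h1 : u i = 0 := by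
    by_contra h
    have := hb i (by simp [h])
    exact absurd this (not_lt.2 hi)
  rw [h1, zero_add]
  apply Finset.sum_eq_zero
  intro d hd
  have := hb d (by simp at hd ⊢; exact Or.inr hd)
  rw [g_ge (this.le.trans hi), mul_zero]

/-- pairs supported below `d` -/
def low (d : I) (p : (I →₀ ℤ) × (I →₀ ℤ)) : Prop :=
  (∀ i ∈ p.1.support, i < d) ∧ ∀ i ∈ p.2.support, i < d

theorem low_countable (d : I) : {p | low d p}.Countable := by
  haveI : Countable (Set.Iio d) := (countable_Iio d).to_subtype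
  have h1 : {u : I →₀ ℤ | ∀ i ∈ u.support, i < d}.Countable := by
    have h2 : Function.Injective (fun u : {u : I →₀ ℤ | ∀ i ∈ u.support, i < d} =>
        (Finsupp.subtypeDomain (fun i => i < d) u.1 : {i // i < d} →₀ ℤ)) := by
      rintro ⟨u, hu⟩ ⟨v, hv⟩ huv
      apply Subtype.ext
      ext i
      by_cases hi : i < d
      · have := DFunLike.congr_fun huv ⟨i, hi⟩
        exact this
      · have e1 : u i = 0 := by
          by_contra h; exact hi (hu i (Finsupp.mem_support_iff.2 h))
        have e2 : v i = 0 := by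
          by_contra h; exact hi (hv i (Finsupp.mem_support_iff.2 h))
        rw [e1, e2]
    haveI : Countable {i // i < d} := (countable_Iio d).to_subtype
    haveI := h2.countable
    exact Set.to_countable _
  refine (h1.prod h1).mono ?_
  intro p hp
  exact ⟨hp.1, hp.2⟩

/-- closed discrete subsets of `H` are countable -/
theorem claimA (D : Set (I → ℤ)) (hD : D ⊆ Hset)
    (hloc : ∀ x ∈ Hset, ∃ b, ∀ d ∈ D, agree b d x → d = x) : D.Countable := by
  have hloc' : ∀ p : (I →₀ ℤ) × (I →₀ ℤ), ∃ b, ∀ d ∈ D, agree b d (rep p.1 p.2) →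
      d = rep p.1 p.2 := fun p => hloc _ ⟨p.1, p.2, rfl⟩
  choose b hb using hloc'
  -- bound of b on low pairs
  have hF : ∀ d : I, ∃ d' : I, ∀ p, low d p → b p < d' := by
    intro d
    obtain ⟨d', hd'⟩ := bounded_of_countable (b '' {p | low d p}) ((low_countable d).image b)
    exact ⟨d', fun p hp => hd' _ ⟨p, hp, rfl⟩⟩
  choose F hF using hF
  have hgood : ∀ d0 : I, ∃ d, d0 < d ∧ ∀ p, low d p → b p ≤ d := by
    intro d0
    obtain ⟨d, h1, h2, h3⟩ := closing_off F d0
    refine ⟨d, h1, fun p hp => ?_⟩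
    -- p is low for some c < d
    have : ∃ c < d, low c p := by
      have key : ∀ s : Finset I, (∀ i ∈ s, i < d) → ∃ c < d, ∀ i ∈ s, i < c := by
        intro s
        induction s using Finset.induction_on with
        | empty => intro _; exact ⟨d0, h1, by simp⟩
        | insert a s ha ih =>
          intro hs
          obtain ⟨c, hc, hc'⟩ := ih (fun i hi => hs i (Finset.mem_insert_of_mem hi))
          obtain ⟨c2, hc2, hc2'⟩ := h3 a (hs a (Finset.mem_insert_self _ _))
          refine ⟨max c c2, max_lt hc hc2, fun i hi => ?_⟩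
          rw [Finset.mem_insert] at hi
          rcases hi with rfl | hi
          · exact hc2'.trans_le (le_max_right _ _)
          · exact (hc' i hi).trans_le (le_max_left _ _)
      obtain ⟨c1, hc1, hc1'⟩ := key p.1.support hp.1
      obtain ⟨c2, hc2, hc2'⟩ := key p.2.support hp.2
      exact ⟨max c1 c2, max_lt hc1 hc2, fun i hi => (hc1' i hi).trans_le (le_max_left _ _),
        fun i hi => (hc2' i hi).trans_le (le_max_right _ _)⟩
    obtain ⟨c, hc, hpc⟩ := this
    exact ((hF c p hpc).trans (h2 c hc)).le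
  choose nx hnx1 hnx2 using hgood
  obtain ⟨i0⟩ : Nonempty I := inferInstance
  let s : ℕ → I := fun n => nx^[n + 1] i0
  have hs : ∀ n, s (n + 1) = nx (s n) := fun n => Function.iterate_succ_apply' _ _ _
  have hsm : StrictMono s := strictMono_nat_of_lt_succ (fun n => by rw [hs]; exact hnx1 _)
  have hsg : ∀ n, ∀ p, low (s n) p → b p ≤ s n := by
    intro n p hp
    have : s n = nx (nx^[n] i0) := Function.iterate_succ_apply' _ _ _
    rw [this] at hp ⊢
    exact hnx2 _ p hp
  have hcov : D ⊆ ⋃ n, (fun p : (I →₀ ℤ) × (I →₀ ℤ) => rep p.1 p.2) '' {p | low (s n) p} := by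
    intro d hd
    obtain ⟨u, c, rfl⟩ := hD hd
    obtain ⟨n, hn⟩ : ∃ n, s n ∉ c.support := by
      by_contra hcon
      push Not at hcon
      exact Set.infinite_of_injective_forall_mem hsm.injective
        (fun n => Finset.mem_coe.2 (hcon n)) (Finset.finite_toSet c.support)
    rw [Set.mem_iUnion]
    refine ⟨n, ?_⟩
    set δ := s n with hδ
    -- the new pair
    have hfin : (Function.support (fun i => if i < δ then
        u i + ∑ b ∈ c.support.filter (fun b => δ < b), c b * g b i else 0)).Finite := by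
      have h1 : ((u.support : Set I) ∪ ⋃ b ∈ c.support.filter (fun b => δ < b),
          {i | i < δ ∧ g b i ≠ 0}).Finite := by
        apply Set.Finite.union (Finset.finite_toSet _)
        apply Set.Finite.biUnion (Finset.finite_toSet _)
        intro b hb'
        rw [Finset.mem_coe, Finset.mem_filter] at hb'
        exact g_finite hb'.2
      apply h1.subset
      intro i hi
      rw [Function.mem_support] at hi
      by_cases hiδ : i < δ
      · rw [if_pos hiδ] at hi
        by_cases hu : u i = 0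
        · right
          rw [hu, zero_add] at hi
          obtain ⟨b, hb1, hb2⟩ := Finset.exists_ne_zero_of_sum_ne_zero hi
          rw [Set.mem_iUnion₂]
          exact ⟨b, hb1, hiδ, right_ne_zero_of_mul hb2⟩
        · left; exact Finset.mem_coe.2 (Finsupp.mem_support_iff.2 hu)
      · rw [if_neg hiδ] at hi; exact (hi rfl).elim
    let u' : I →₀ ℤ := Finsupp.ofSupportFinite _ hfin
    have hu' : ∀ i, u' i = if i < δ then
        u i + ∑ b ∈ c.support.filter (fun b => δ < b), c b * g b i else 0 := fun i => rfl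
    let c' : I →₀ ℤ := c.filter (fun b => b < δ)
    have hlow : low δ (u', c') := by
      constructor
      · intro i hi
        rw [Finsupp.mem_support_iff, hu'] at hi
        by_contra h; rw [if_neg h] at hi; exact hi rfl
      · intro i hi
        have := Finsupp.support_filter (fun b => b < δ) c
        rw [show (u', c').2.support = (c.filter (fun b => b < δ)).support from rfl, this,
          Finset.mem_filter] at hi
        exact hi.2
    have hag : agree δ (rep u c) (rep u' c') := by
      intro i hi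
      unfold rep
      rw [hu', if_pos hi]
      have e1 : c'.support = c.support.filter (fun b => b < δ) := Finsupp.support_filter _ _
      rw [e1]
      have e2 : ∑ b ∈ c.support.filter (fun b => b < δ), c' b * g b i =
          ∑ b ∈ c.support.filter (fun b => b < δ), c b * g b i := by
        apply Finset.sum_congr rfl
        intro b hb'
        rw [Finset.mem_filter] at hb'
        rw [show c' b = c b from Finsupp.filter_apply_pos _ _ hb'.2]
      rw [e2, add_assoc]
      congr 1
      have e3 : c.support = c.support.filter (fun b => δ < b) ∪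
          c.support.filter (fun b => b < δ) := by
        ext b
        simp only [Finset.mem_union, Finset.mem_filter]
        constructor
        · intro hb'
          rcases lt_trichotomy b δ with h | h | h
          · exact Or.inr ⟨hb', h⟩
          · rw [h] at hb'; exact (hn hb').elim
          · exact Or.inl ⟨hb', h⟩
        · rintro (h | h)
          · exact h.1
          · exact h.1
      conv_lhs => rw [e3]
      rw [Finset.sum_union]
      rw [Finset.disjoint_left]
      intro b h1 h2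
      rw [Finset.mem_filter] at h1 h2
      exact lt_asymm h1.2 h2.2
    have := hb (u', c') _ hd (agree_mono (hsg n _ hlow) hag)
    exact ⟨(u', c'), hlow, this.symm⟩
  refine Set.Countable.mono hcov (Set.countable_iUnion fun n => ?_)
  exact (low_countable _).image _

/-- there is no suitable set -/
theorem claimB (S : Set (I → ℤ)) (hS : S ⊆ Hset)
    (h1 : ∀ b, ∀ x ∈ Hset, ∃ b', ∀ s ∈ S, ¬ agree b s 0 → agree b' s x → s = x)
    (h2 : ∀ x ∈ Hset, ∀ b, ∃ k ∈ AddSubgroup.closure S, agree b k x) : False := by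
  have hF : ∀ b : I, ∃ f : I, ∀ s ∈ S, ¬ agree b s 0 → ∀ i, f ≤ i → s i = 0 := by
    intro b
    have hc : {s ∈ S | ¬ agree b s 0}.Countable := by
      apply claimA _ (fun s hs => hS hs.1)
      intro x hx
      obtain ⟨b', hb'⟩ := h1 b x hx
      exact ⟨b', fun d hd => hb' d hd.1 hd.2⟩
    haveI := hc.to_subtype
    have hbd : ∀ s : {s ∈ S | ¬ agree b s 0}, ∃ f : I, ∀ i, f ≤ i → s.1 i = 0 :=
      fun s => Hset_bounded _ (hS s.2.1)
    choose f hf using hbd
    obtain ⟨F, hF⟩ := bounded_range f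
    exact ⟨F, fun s hs hs' i hi => hf ⟨s, hs, hs'⟩ i ((hF _).le.trans hi)⟩
  choose F hF using hF
  obtain ⟨i0⟩ : Nonempty I := inferInstance
  obtain ⟨d, hd0, hd1, hd2⟩ := closing_off F i0
  have hg : g d ∈ Hset := by
    refine ⟨0, Finsupp.single d 1, ?_⟩
    ext i
    rw [rep_eq, Finsupp.sum_single_index]
    · simp
    · simp
  have hW : ∀ k ∈ AddSubgroup.closure S, ∃ c < d, ∀ i, c ≤ i → i < d → k i = 0 := by
    intro k hk
    induction hk using AddSubgroup.closure_induction with
    | mem s hs =>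
      by_cases hs' : agree d s 0
      · exact ⟨i0, hd0, fun i _ hi => hs' i hi⟩
      · have : ∃ i < d, s i ≠ 0 := by
          by_contra hcon
          push Not at hcon
          exact hs' (fun i hi => hcon i hi)
        obtain ⟨i, hi, hsi⟩ := this
        obtain ⟨c, hc, hic⟩ := hd2 i hi
        have hsc : ¬ agree c s 0 := fun h => hsi (h i hic)
        exact ⟨F c, hd1 c hc, fun j hj _ => hF c s hs hsc j hj⟩
    | zero => exact ⟨i0, hd0, fun i _ _ => rfl⟩
    | add x y _ _ hx hy =>
      obtain ⟨c1, hc1, hx⟩ := hx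
      obtain ⟨c2, hc2, hy⟩ := hy
      refine ⟨max c1 c2, max_lt hc1 hc2, fun i hi hid => ?_⟩
      rw [Pi.add_apply, hx i ((le_max_left _ _).trans hi) hid,
        hy i ((le_max_right _ _).trans hi) hid, add_zero]
    | neg x _ hx =>
      obtain ⟨c1, hc1, hx⟩ := hx
      exact ⟨c1, hc1, fun i hi hid => by rw [Pi.neg_apply, hx i hi hid, neg_zero]⟩
  obtain ⟨k, hk, hkd⟩ := h2 _ hg d
  obtain ⟨c, hc, hc'⟩ := hW k hk
  obtain ⟨i, hi1, hi2, hi3⟩ := g_cofinal hc
  rw [← hkd i hi2] at hi3
  exact hi3 (hc' i hi1 hi2)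

/-- the ordered group of all functions with the lexicographic order -/
abbrev Lam : Type := Lex (I → ℤ)

/-- the group `H` -/
def H : AddSubgroup Lam where
  carrier := {x | (ofLex x : I → ℤ) ∈ Hset}
  zero_mem' := ⟨0, 0, by ext i; simp [rep]; rfl⟩
  add_mem' := by
    rintro x y ⟨u, c, hx⟩ ⟨u', c', hy⟩
    refine ⟨u + u', c + c', ?_⟩
    ext i
    rw [rep_add]
    have h1 := congrFun hx i
    have h2 := congrFun hy i
    rw [← h1, ← h2]; rfl
  neg_mem' := by
    rintro x ⟨u, c, hx⟩
    refine ⟨-u, -c, ?_⟩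
    ext i
    rw [rep_neg]
    have h1 := congrFun hx i
    rw [← h1]; rfl

/-- underlying function -/
def fn (x : H) : I → ℤ := ofLex (x : Lam)

theorem fn_mem (x : H) : fn x ∈ Hset := x.2

theorem fn_inj {x y : H} (h : fn x = fn y) : x = y := Subtype.ext h

theorem lt_iff (x y : H) : x < y ↔ ∃ i, (∀ j < i, fn x j = fn y j) ∧ fn x i < fn y i := Iff.rfl

theorem fn_add (x y : H) : fn (x + y) = fn x + fn y := rfl

theorem fn_neg (x : H) : fn (-x) = - fn x := rfl

theorem fn_sub (x y : H) : fn (x - y) = fn x - fn y := rfl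

theorem fn_zero : fn 0 = 0 := rfl

def ofH (x : I → ℤ) (hx : x ∈ Hset) : H := ⟨toLex x, hx⟩

theorem fn_ofH (x : I → ℤ) (hx : x ∈ Hset) : fn (ofH x hx) = x := rfl

/-- basis element -/
theorem single_mem (b : I) : (fun i => if i = b then (1 : ℤ) else 0) ∈ Hset := by
  refine ⟨Finsupp.single b 1, 0, ?_⟩
  ext i
  simp [rep, Finsupp.single_apply, eq_comm]

def e (b : I) : H := ofH _ (single_mem b)

theorem e_pos (b : I) : 0 < e b := by
  rw [lt_iff]
  refine ⟨b, fun j hj => ?_, ?_⟩
  · rw [fn_zero]; unfold e; rw [fn_ofH]; simp [hj.ne]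
  · rw [fn_zero]; unfold e; rw [fn_ofH]; simp

/-- the ambient ordered group -/
abbrev G : Type := Lex (H × H)

instance : TopologicalSpace G := Preorder.topology G

instance : OrderTopology G := ⟨rfl⟩

def mk (a b : H) : G := toLex (a, b)

def fst (x : G) : H := (ofLex x).1

def snd (x : G) : H := (ofLex x).2

theorem mk_eta (x : G) : mk (fst x) (snd x) = x := rfl

theorem G_ext {x y : G} (h1 : fst x = fst y) (h2 : snd x = snd y) : x = y := by
  rw [← mk_eta x, ← mk_eta y, h1, h2]

theorem fst_mk (a b : H) : fst (mk a b) = a := rfl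

theorem snd_mk (a b : H) : snd (mk a b) = b := rfl

theorem fst_add (x y : G) : fst (x + y) = fst x + fst y := rfl

theorem snd_add (x y : G) : snd (x + y) = snd x + snd y := rfl

theorem fst_neg (x : G) : fst (-x) = - fst x := rfl

theorem snd_neg (x : G) : snd (-x) = - snd x := rfl

theorem G_lt_iff (x y : G) : x < y ↔ fst x < fst y ∨ fst x = fst y ∧ snd x < snd y :=
  Prod.Lex.lt_iff

/-- basic neighbourhoods -/
def nb (b : I) (x : G) : Set G := {y | fst y = fst x ∧ agree b (fn (snd y)) (fn (snd x))}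

theorem nb_mem_nhds (b : I) (x : G) : nb b x ∈ 𝓝 x := by
  have h1 : Set.Ioo (mk (fst x) (snd x - e b)) (mk (fst x) (snd x + e b)) ∈ 𝓝 x := by
    apply Ioo_mem_nhds
    · rw [G_lt_iff]; right
      refine ⟨rfl, ?_⟩
      rw [snd_mk]
      exact sub_lt_self _ (e_pos b)
    · rw [G_lt_iff]; right
      refine ⟨rfl, ?_⟩
      rw [snd_mk]
      exact lt_add_of_pos_right _ (e_pos b)
  refine Filter.mem_of_superset h1 ?_
  rintro y ⟨hy1, hy2⟩
  rw [G_lt_iff, fst_mk, snd_mk] at hy1 hy2
  have hf : fst y = fst x := by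
    rcases hy1 with hy1 | hy1
    · rcases hy2 with hy2 | hy2
      · exact absurd hy1 (not_lt.2 hy2.le)
      · exact hy2.1
    · exact hy1.1.symm
  refine ⟨hf, ?_⟩
  have k1 : snd x - e b < snd y := by
    rcases hy1 with hy1 | hy1
    · rw [hf] at hy1; exact absurd hy1 (lt_irrefl _)
    · exact hy1.2
  have k2 : snd y < snd x + e b := by
    rcases hy2 with hy2 | hy2
    · rw [hf] at hy2; exact absurd hy2 (lt_irrefl _)
    · exact hy2.2
  have m1 : - e b < snd y - snd x := by
    rw [lt_sub_iff_add_lt, neg_add_eq_sub]; exact k1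
  have m2 : snd y - snd x < e b := by
    rw [sub_lt_iff_lt_add, add_comm]; exact k2
  -- first index where they differ
  intro i hi
  by_contra hne
  have hex : ∃ i, i < b ∧ fn (snd y) i ≠ fn (snd x) i := ⟨i, hi, hne⟩
  obtain ⟨j, ⟨hjb, hj⟩, hmin⟩ := WellFounded.has_min (wellFounded_lt (α := I))
    {i | i < b ∧ fn (snd y) i ≠ fn (snd x) i} hex
  have hbelow : ∀ k < j, fn (snd y) k = fn (snd x) k := by
    intro k hk
    by_contra h
    exact hmin k ⟨hk.trans hjb, h⟩ hk
  have hej : ∀ k < b, fn (e b) k = 0 := by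
    intro k hk
    unfold e; rw [fn_ofH]; simp [hk.ne]
  rcases lt_or_gt_of_ne hj with h | h
  · -- snd y - snd x < - e b
    apply absurd m1 (not_lt.2 (le_of_lt _))
    rw [lt_iff]
    refine ⟨j, fun k hk => ?_, ?_⟩
    · rw [fn_sub, Pi.sub_apply, hbelow k hk, sub_self, fn_neg, Pi.neg_apply,
        hej k (hk.trans hjb), neg_zero]
    · rw [fn_sub, Pi.sub_apply, fn_neg, Pi.neg_apply, hej j hjb, neg_zero]
      exact sub_neg_of_lt h
  · apply absurd m2 (not_lt.2 (le_of_lt _))
    rw [lt_iff]
    refine ⟨j, fun k hk => ?_, ?_⟩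
    · rw [fn_sub, Pi.sub_apply, hbelow k hk, sub_self, hej k (hk.trans hjb)]
    · rw [fn_sub, Pi.sub_apply, hej j hjb]
      exact sub_pos_of_lt h

instance : NoMaxOrder G := ⟨fun x => ⟨mk (fst x) (snd x + e (Classical.arbitrary I)), by
  rw [G_lt_iff]; right
  exact ⟨rfl, lt_add_of_pos_right _ (e_pos _)⟩⟩⟩

instance : NoMinOrder G := ⟨fun x => ⟨mk (fst x) (snd x - e (Classical.arbitrary I)), by
  rw [G_lt_iff]; right
  exact ⟨rfl, sub_lt_self _ (e_pos _)⟩⟩⟩

theorem exists_nb (x : G) (U : Set G) (hU : U ∈ 𝓝 x) : ∃ b, nb b x ⊆ U := by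
  obtain ⟨l, u, ⟨hl, hu⟩, hlu⟩ := (mem_nhds_iff_exists_Ioo_subset).1 hU
  -- lower side
  have h1 : ∃ b, ∀ y ∈ nb b x, l < y := by
    rw [G_lt_iff] at hl
    rcases hl with hl | ⟨hl1, hl2⟩
    · exact ⟨Classical.arbitrary I, fun y hy => by
        rw [G_lt_iff, hy.1]; exact Or.inl hl⟩
    · rw [lt_iff] at hl2
      obtain ⟨i, hi1, hi2⟩ := hl2
      obtain ⟨b, hb⟩ := exists_gt' i
      refine ⟨b, fun y hy => ?_⟩
      rw [G_lt_iff, hy.1]; right
      refine ⟨hl1, ?_⟩
      rw [lt_iff]
      refine ⟨i, fun j hj => ?_, ?_⟩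
      · rw [hi1 j hj, hy.2 j (hj.trans hb)]
      · rw [hy.2 i hb]; exact hi2
  have h2 : ∃ b, ∀ y ∈ nb b x, y < u := by
    rw [G_lt_iff] at hu
    rcases hu with hl | ⟨hl1, hl2⟩
    · exact ⟨Classical.arbitrary I, fun y hy => by
        rw [G_lt_iff, hy.1]; exact Or.inl hl⟩
    · rw [lt_iff] at hl2
      obtain ⟨i, hi1, hi2⟩ := hl2
      obtain ⟨b, hb⟩ := exists_gt' i
      refine ⟨b, fun y hy => ?_⟩
      rw [G_lt_iff, hy.1]; right
      refine ⟨hl1, ?_⟩
      rw [lt_iff]
      refine ⟨i, fun j hj => ?_, ?_⟩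
      · rw [← hi1 j hj, hy.2 j (hj.trans hb)]
      · rw [hy.2 i hb]; exact hi2
  obtain ⟨b1, hb1⟩ := h1
  obtain ⟨b2, hb2⟩ := h2
  refine ⟨max b1 b2, fun y hy => hlu ⟨?_, ?_⟩⟩
  · exact hb1 y ⟨hy.1, agree_mono (le_max_left _ _) hy.2⟩
  · exact hb2 y ⟨hy.1, agree_mono (le_max_right _ _) hy.2⟩

/-- the subgroup `0 x H` -/
def K : Set G := {x | fst x = 0}

theorem fiber_open (A : Set H) : IsOpen {x : G | fst x ∈ A} := by
  rw [isOpen_iff_mem_nhds]
  intro x hx
  refine Filter.mem_of_superset (nb_mem_nhds (Classical.arbitrary I) x) ?_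
  intro y hy
  show fst y ∈ A
  rw [hy.1]; exact hx

theorem K_clopen : IsClopen K := by
  constructor
  · rw [← isOpen_compl_iff]
    exact fiber_open {a | a ≠ 0}
  · exact fiber_open {0}

theorem K_sub : (ofAdd G).IsSub K := by
  refine ⟨⟨0, rfl⟩, fun a ha => ?_, fun a ha b hb => ?_⟩
  · show fst (-a) = 0
    rw [fst_neg, show fst a = 0 from ha, neg_zero]
  · show fst (a + b) = 0
    rw [fst_add, show fst a = 0 from ha, show fst b = 0 from hb, add_zero]

/-- a closed suitable set of `G` -/
def T : Set G := {x | snd x = 0 ∨ snd x = fst x}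

theorem T_fiber (x : G) : T ∩ {y | fst y = fst x} ⊆ {mk (fst x) 0, mk (fst x) (fst x)} := by
  rintro y ⟨hy1, hy2⟩
  rw [Set.mem_insert_iff, Set.mem_singleton_iff]
  have hy2' : fst y = fst x := hy2
  rcases hy1 with h | h
  · left; rw [← mk_eta y, h, hy2']
  · right; rw [← mk_eta y, h, hy2']

theorem subset_T_closed (A : Set G) (hA : A ⊆ T) : IsClosed A := by
  rw [← isOpen_compl_iff, isOpen_iff_mem_nhds]
  intro x hx
  have hfin : (A ∩ {y | fst y = fst x}).Finite :=
    (Set.toFinite {mk (fst x) 0, mk (fst x) (fst x)}).subset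
      ((Set.inter_subset_inter_left _ hA).trans (T_fiber x))
  have h1 : (A ∩ {y | fst y = fst x})ᶜ ∈ 𝓝 x :=
    hfin.isClosed.isOpen_compl.mem_nhds (fun h => hx h.1)
  have h2 : {y : G | fst y = fst x} ∈ 𝓝 x :=
    (fiber_open {fst x}).mem_nhds rfl
  filter_upwards [h1, h2] with y hy1 hy2 hy3
  exact hy1 ⟨hy3, hy2⟩

theorem T_discrete : DiscreteTopology T := by
  rw [discreteTopology_iff_forall_isClosed]
  intro A
  have h1 : IsClosed ((↑) '' A : Set G) := subset_T_closed _ (by
    rintro x ⟨a, _, rfl⟩; exact a.2)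
  have h2 := h1.preimage (continuous_subtype_val (p := (· ∈ T)))
  rwa [Set.preimage_image_eq _ Subtype.val_injective] at h2

theorem T_gen : (ofAdd G).gen T = Set.univ := by
  rw [gen_ofAdd, Set.eq_univ_iff_forall]
  intro x
  have h1 : ∀ a : H, mk a 0 ∈ AddSubgroup.closure T :=
    fun a => AddSubgroup.subset_closure (Or.inl rfl)
  have h2 : ∀ a : H, mk a a ∈ AddSubgroup.closure T :=
    fun a => AddSubgroup.subset_closure (Or.inr rfl)
  have h3 : x = mk (fst x) 0 + (mk (snd x) (snd x) + - mk (snd x) 0) := by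
    have e1 : fst x = fst (mk (fst x) 0 + (mk (snd x) (snd x) + - mk (snd x) 0)) := by
      rw [fst_add, fst_add, fst_neg, fst_mk, fst_mk, fst_mk, add_neg_cancel, add_zero]
    have e2 : snd x = snd (mk (fst x) 0 + (mk (snd x) (snd x) + - mk (snd x) 0)) := by
      rw [snd_add, snd_add, snd_neg, snd_mk, snd_mk, snd_mk, neg_zero, add_zero, zero_add]
    exact G_ext e1 e2
  rw [h3]
  exact AddSubgroup.add_mem _ (h1 _) (AddSubgroup.add_mem _ (h2 _) (AddSubgroup.neg_mem _ (h1 _)))

theorem T_suitable : (ofAdd G).IsSuitable Set.univ T := by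
  refine ⟨Set.subset_univ _, T_discrete, ?_, ?_⟩
  · have h1 : IsClosed (insert (ofAdd G).one T) := by
      have : insert (ofAdd G).one T = T := Set.insert_eq_of_mem (Or.inl rfl)
      rw [this]; exact subset_T_closed _ subset_rfl
    exact h1.preimage continuous_subtype_val
  · rw [T_gen, Set.preimage_univ]; exact dense_univ

theorem K_no_suitable (S : Set G) : ¬ (ofAdd G).IsSuitable K S := by
  rintro ⟨hSK, hdisc, hclosed, hdense⟩
  rw [gen_ofAdd] at hdense
  -- the underlying functions
  let S0 : Set (I → ℤ) := (fun x : G => fn (snd x)) '' S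
  have hinj : ∀ x y : G, x ∈ K → y ∈ K → fn (snd x) = fn (snd y) → x = y := by
    intro x y hx hy h
    rw [← mk_eta x, ← mk_eta y, show fst x = 0 from hx, show fst y = 0 from hy, fn_inj h]
  -- closedness in G
  have hclosed' : IsClosed (insert 0 S : Set G) := by
    have h1 := K_clopen.isClosed.isClosedEmbedding_subtypeVal.isClosedMap _ hclosed
    have h2 : ((↑) '' ((↑) ⁻¹' (insert (ofAdd G).one S) : Set K) : Set G) = insert 0 S := by
      rw [Subtype.image_preimage_coe]
      apply Set.inter_eq_self_of_subset_right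
      intro x hx
      rcases hx with rfl | hx
      · rfl
      · exact hSK hx
    rwa [h2] at h1
  refine claimB S0 ?_ ?_ ?_
  · rintro _ ⟨x, _, rfl⟩; exact fn_mem _
  · intro b x hx
    set X : G := mk 0 (ofH x hx) with hX
    by_cases hXS : X ∈ S
    · -- discreteness
      have h1 : ({⟨X, hXS⟩} : Set S) ∈ 𝓝 (⟨X, hXS⟩ : S) := by
        rw [nhds_discrete]; exact Set.mem_singleton _
      rw [nhds_subtype_eq_comap, Filter.mem_comap] at h1
      obtain ⟨U, hU, hU'⟩ := h1
      obtain ⟨b', hb'⟩ := exists_nb X U hU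
      refine ⟨b', ?_⟩
      rintro _ ⟨s, hs, rfl⟩ _ hag
      have h2 : s ∈ nb b' X := ⟨by rw [show fst s = 0 from hSK hs]; rfl, hag⟩
      have h3 : (⟨s, hs⟩ : S) ∈ ({⟨X, hXS⟩} : Set S) := hU' (hb' h2)
      rw [Set.mem_singleton_iff, Subtype.mk.injEq] at h3
      show fn (snd s) = x
      rw [h3]; rfl
    · by_cases hX0 : X = 0
      · refine ⟨b, ?_⟩
        rintro _ ⟨s, hs, rfl⟩ hns hag
        exfalso
        apply hns
        have : x = 0 := by
          have h := congrArg (fun y => fn (snd y)) hX0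
          exact h
        rw [this] at hag
        exact hag
      · have h1 : (insert 0 S : Set G)ᶜ ∈ 𝓝 X := by
          apply hclosed'.isOpen_compl.mem_nhds
          rintro (h | h)
          · exact hX0 h
          · exact hXS h
        obtain ⟨b', hb'⟩ := exists_nb X _ h1
        refine ⟨b', ?_⟩
        rintro _ ⟨s, hs, rfl⟩ _ hag
        exfalso
        have h2 : s ∈ nb b' X := ⟨by rw [show fst s = 0 from hSK hs]; rfl, hag⟩
        exact hb' h2 (Or.inr hs)
  · intro x hx b
    set X : G := mk 0 (ofH x hx) with hX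
    have hXK : X ∈ K := rfl
    have h1 : ((↑) ⁻¹' (nb b X) : Set K) ∈ 𝓝 (⟨X, hXK⟩ : K) := by
      rw [nhds_subtype_eq_comap]
      exact Filter.preimage_mem_comap (nb_mem_nhds b X)
    obtain ⟨⟨k, hkK⟩, hk1, hk2⟩ := hdense.inter_nhds_nonempty h1
    refine ⟨fn (snd k), ?_, hk2.2⟩
    -- image of the closure
    have h3 : ∀ k ∈ AddSubgroup.closure S, fn (snd k) ∈ AddSubgroup.closure S0 := by
      intro k hk
      induction hk using AddSubgroup.closure_induction with
      | mem s hs => exact AddSubgroup.subset_closure ⟨s, hs, rfl⟩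
      | zero => exact AddSubgroup.zero_mem _
      | add x y _ _ hx hy => exact AddSubgroup.add_mem _ hx hy
      | neg x _ hx => exact AddSubgroup.neg_mem _ hx
    exact h3 k hk1

/-- **Main theorem.** There is a strongly topologically orderable gyrogroup `G` with a suitable
set and a subgyrogroup `H` of `G` without any suitable set. -/
theorem result : ∃ (G : Type) (_ : TopologicalSpace G) (Γ : Gyrogroup G),
    Γ.IsTopological ∧ Γ.IsStrong ∧ TopologicallyOrderable G ∧
    (∀ a b, Γ.op a b = Γ.op b a) ∧ (∀ a b c, Γ.gyr a b c = c) ∧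
    (∃ S, Γ.IsSuitable Set.univ S ∧ IsClosed S) ∧
    ∃ H : Set G, Γ.IsSub H ∧ IsClopen H ∧ ¬ ∃ S, Γ.IsSuitable H S := by
  refine ⟨G, inferInstance, ofAdd G, ?_, ?_, ?_, ?_, ?_, ?_, ?_⟩
  · exact ⟨continuous_add, continuous_neg⟩
  · refine ⟨{u | u ∈ 𝓝 0}, fun u hu => hu, fun v hv => ⟨v, hv, subset_rfl⟩, ?_⟩
    intro x y u _
    show (fun z => z) '' u = u
    exact Set.image_id' u
  · exact ⟨inferInstance, inferInstance⟩
  · exact fun a b => add_comm a b
  · exact fun a b c => rfl
  · exact ⟨T, T_suitable, subset_T_closed _ subset_rfl⟩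
  · exact ⟨K, K_sub, K_clopen, fun ⟨S, hS⟩ => K_no_suitable S hS⟩

end

end Pool.H81.MV.NoSuitable
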